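import Mathlib
import Pool.Agent.Helper929.FP.Fin

set_option autoImplicit false

namespace Pool.Agent.Results.MP_86ed72_nt.ExponentThreeOrFive

/-- If `n! + x = x ^ k` with `x ≥ 2` and `k ≥ 3`, then `k = 3` or `k = 5`. -/
theorem result (n x k : ℕ) (hx : 2 ≤ x) (hk : 3 ≤ k) (h : n.factorial + x = x ^ k) :
    k = 3 ∨ k = 5 :=
  FacPow.exponent hx hk h

end Pool.Agent.Results.MP_86ed72_nt.ExponentThreeOrFive
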